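import Pool.Agent.J4H33.H3

/-!
# Generalized Cunningham chains of growing length

A Cunningham chain of the first kind is a sequence of primes with `p_i = 2 p_(i-1) + 1`. Here the rule is
`p_i = a_i p_(i-1) - h_i`, with `a_i` in an ARBITRARY given set `A_i` of at least `M ^ (1 - ε)` primes in `[β M, M]` and with
small shifts `0 < h_i < H_i`, `H_i ≥ M`. The length `k` of the chains may grow with `N`: it may be as large as a constant times
`√(log N / log log N)`, with `M = (log N) ^ (C k)`, and there are at least `4 ^ (-k)` times the expected number of chains from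
all but `N / D` of the integers `p_0 ≤ N`, in particular from almost all primes `p_0`, if `D` is a power of `log N`.
-/

set_option autoImplicit false

namespace Pool.Agent.Results.MP_c77da8_nt.LongSparseChains

open Finset

/-- the set of the primes `p` with `x - H < p < x` -/
noncomputable def window (H x : ℝ) : Finset ℕ := (Icc 1 ⌊x⌋₊).filter (fun p => p.Prime ∧ x - H < p ∧ (p : ℝ) < x)

/-- for `L = [(A_1, H_1), ..., (A_k, H_k)]`, the number of sequences `a_1, p_1, ..., a_k, p_k` such that, with `p_0 = n`,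
every `a_i` lies in `A_i` and every `p_i` is a prime with `a_i p_(i-1) - H_i < p_i < a_i p_(i-1)` -/
noncomputable def chains : List (Finset ℕ × ℝ) → ℕ → ℕ
  | [], _ => 1
  | (S :: L), n => ∑ a ∈ S.1, ∑ p ∈ window S.2 ((a : ℝ) * n), chains L p

/-- the expected number of chains: the product of the `|A_i| H_i / log N` -/
noncomputable def expected (N : ℝ) (L : List (Finset ℕ × ℝ)) : ℝ := (L.map (fun S => (S.1.card : ℝ) * S.2 / Real.log N)).prod

theorem result (γ ε ρ β : ℝ) (hγ : 0 < γ) (hε : 0 < ε) (hcond : γ + ε < 1 / 3) (hρ : 0 < ρ) (hβ : 0 < β) (hβ1 : β ≤ 1) :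
    ∃ t N₀ : ℝ, 0 < t ∧ ∀ N : ℝ, N₀ ≤ N → ∀ (k : ℕ) (M D : ℝ), 1 ≤ k → 1 ≤ D → 0 < M →
      D * (8 / β * Real.log N) ^ (k + 1) ≤ M ^ γ → M ^ k ≤ N ^ t →
      ∀ L : List (Finset ℕ × ℝ), L.length = k →
      (∀ S ∈ L, (∀ a ∈ S.1, a.Prime ∧ β * M ≤ (a : ℝ) ∧ (a : ℝ) ≤ M) ∧ M ^ (1 - ε) ≤ (S.1.card : ℝ) ∧
        M ≤ S.2 ∧ S.2 ≤ N ^ (1 - ρ)) →
      (((Icc 1 ⌊N⌋₊).filter (fun n => ¬ (1 / 4) ^ k * expected N L ≤ (chains L n : ℝ))).card : ℝ) ≤ N / D := by
  classical
  obtain ⟨t, N₀, ht, hmain⟩ := Pool.Agent.J4H33.long_main γ ε ρ β hγ hε hcond hρ hβ hβ1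
  refine ⟨t, N₀, ht, fun N hN k M D hk hD1 hM0 hMD hMN L hL hLS => ?_⟩
  have hch : ∀ L : List (Finset ℕ × ℝ), ∀ n, (chains L n : ℝ) = Pool.Agent.J4H33.chn L n := by
    intro L
    induction L with
    | nil => intro n; unfold chains Pool.Agent.J4H33.chn; norm_num
    | cons S L ih =>
      intro n
      unfold chains Pool.Agent.J4H33.chn
      rw [Nat.cast_sum]
      apply sum_congr rfl
      intro a _
      rw [Nat.cast_sum]
      apply sum_congr rfl
      intro p _
      exact ih p
  have hex : ∀ L : List (Finset ℕ × ℝ), expected N L = Pool.Agent.J4H33.ech (Real.log N) L := by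
    intro L
    induction L with
    | nil => unfold expected Pool.Agent.J4H33.ech; simp
    | cons S L ih =>
      unfold expected at ih
      unfold expected Pool.Agent.J4H33.ech
      rw [List.map_cons, List.prod_cons, ih]
      ring
  have h1 := hmain N hN k M D hk hD1 hM0 hMD hMN L hL (fun S hS => by
    obtain ⟨a1, a2, a3, a4⟩ := hLS S hS
    exact ⟨a1, a2, a3, a4⟩)
  refine le_trans ?_ h1
  apply Nat.cast_le.2
  apply card_le_card
  intro n hn
  rw [mem_filter] at hn ⊢
  refine ⟨hn.1, ?_⟩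
  rw [← hch, ← hex]
  exact not_le.1 hn.2

end Pool.Agent.Results.MP_c77da8_nt.LongSparseChains
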