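import Pool.Agent.J4H78.CC.Mult

/-!
# Almost every vector of positions has a bounded multiple with primes, in Cunningham sequences

The numbers `2 ^ j n - 1`, `j = 0, 1, 2, ...`, form a sequence in which every term is twice the preceding one
plus `1`: Cunningham chains of the first kind are runs of primes in such sequences. The question is whether for
every `k` there is `n` with primes at the positions `0, 1, 2, ..., k`. Here: for every `k` there is `L` such that
for every `ε > 0`, in EVERY cube `∏ (u_l, u_l + H]` of side `H ≥ C(ε)`, all but `ε H ^ k` of the vectors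
`h = (h_1, ..., h_k)` of positions have a multiple `d h`, `1 ≤ d ≤ L`, such that there are (infinitely many) `n`
with primes at the positions `0, d h_1, ..., d h_k`: at least `N / (log N) ^ B` of the `n ∈ [N, D N]`.

The theorem treats arbitrary bases `b ≥ 2` and constants `c` prime to `b` (for the question `b = 2`, `c = -1`; the
chains of the second kind are `b = 2`, `c = 1`), and it gives one common multiple `d` for `R` pairs `(b, c)` and
`R` scales `N`, which may be of very different sizes. `L` depends only on `R` and `k`, and `C` only on
`R`, `k` and `ε`, not on the bases, nor on the place of the cube.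

Proof: the words of length `M` over `k + 1` letters, each with a set of positions; by the coloured Maynard-Tao
theorem of the starting files with the constant `18 / 5` (`Pool.Agent.Y827.RO.lamRD`), nested `R` times, the
proportion `(5 / 18) ^ R` of the words contain primes at the same time for all `R` families and scales; by the
density Hales-Jewett theorem these contain a combinatorial line; if a positive proportion of the `h` were
bad, the multidimensional Szemeredi-Varnavides argument of the starting file `Pool.Agent.Y877.CombS` would give
sets of positions for which the differences along ALL combinatorial lines are multiples of bad vectors.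
-/

set_option autoImplicit false

namespace Pool.Agent.Results.MP_c77da8_nt.MultiplesOfPositions

open Finset

/-- the number of the `n ∈ [N, D N]` such that `n + c` and all the numbers `b ^ (v l) n + c` are primes -/
def count {k : ℕ} (b : ℕ) (c : ℤ) (D N : ℕ) (v : Fin k → ℕ) : ℕ :=
  ((Icc N (D * N)).filter (fun n : ℕ => ((n : ℤ) + c).toNat.Prime ∧
    ∀ l, ((b : ℤ) ^ v l * n + c).toNat.Prime)).card

open Classical in
theorem result (R k : ℕ) : ∃ L B : ℕ, ∀ ε : ℝ, 0 < ε → ∃ C : ℕ, ∀ (u : Fin k → ℕ) (H : ℕ), C ≤ H →
    ∀ (b : Fin R → ℕ) (c : Fin R → ℤ), (∀ ρ, 2 ≤ b ρ ∧ IsCoprime (b ρ : ℤ) (c ρ)) →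
    ∃ D N₀ : ℕ, ∀ N : Fin R → ℕ, (∀ ρ, N₀ ≤ N ρ) →
    (1 - ε) * (H : ℝ) ^ k ≤ (((Fintype.piFinset (fun l => Ioc (u l) (u l + H))).filter
      (fun h => ∃ d : ℕ, 1 ≤ d ∧ d ≤ L ∧ ∀ ρ, (N ρ : ℝ) / (Real.log (N ρ)) ^ B ≤
        (count (b ρ) (c ρ) D (N ρ) (fun l => d * h l) : ℝ))).card : ℝ) :=
  Pool.Agent.J4H78.CC.mult R k

end Pool.Agent.Results.MP_c77da8_nt.MultiplesOfPositions
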