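import Pool.Agent.J4H81.DK.An

/-!
# Perturbed Cunningham chains with few exceptional perturbations (helper81, with helpers 6, 17, 18, 19, 28, 32, 42, 45, 57, 68, 98)
-/

set_option autoImplicit false

namespace Pool.Agent.Results.MP_c77da8_nt.PerturbedChainsFewExceptions

open Finset Filter

/-- the sequence `p_0 = n`, `p_(i+1) = m_(i+1) p_i + e_(i+1)` for `i < k` (constant afterwards) -/
def term {k : ℕ} (m : Fin k → ℕ) (e : Fin k → ℤ) (n : ℤ) : ℕ → ℤ
  | 0 => n
  | i + 1 => if h : i < k then m ⟨i, h⟩ * term m e n i + e ⟨i, h⟩ else term m e n i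

/-- no local obstruction: for every prime `q` there is an `n` with none of `p_0, ..., p_k` divisible by `q` -/
def Possible {k : ℕ} (m : Fin k → ℕ) (e : Fin k → ℤ) : Prop :=
  ∀ q : ℕ, q.Prime → ∃ n : ℤ, ∀ i ≤ k, ¬ (q : ℤ) ∣ term m e n i

open Classical in
/-- the number of the `n` with `(k+1) X ≤ n ≤ (k+2) X` for which `p_0, ..., p_k` all are (positive) primes -/
noncomputable def chains {k : ℕ} (m : Fin k → ℕ) (e : Fin k → ℤ) (X : ℕ) : ℕ :=
  ((Icc ((k + 1) * X) ((k + 2) * X)).filter (fun n : ℕ => ∀ i ≤ k, (term m e n i).toNat.Prime)).card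

open Classical in
/-- the `e` with entries in `[-X, X]` without local obstruction which have few chains -/
noncomputable def exceptional {k : ℕ} (m : Fin k → ℕ) (X : ℕ) : Finset (Fin k → ℤ) :=
  (Fintype.piFinset (fun _ : Fin k => Icc (-(X : ℤ)) X)).filter (fun e => Possible m e ∧
    (chains m e X : ℝ) < X * Real.exp (-(Real.log X / Real.log (Real.log X) ^ 4)))

/-! ### Proof -/

def aa {k : ℕ} (m : Fin k → ℕ) : ℕ → ℕ
  | 0 => 1
  | i + 1 => if h : i < k then m ⟨i, h⟩ * aa m i else aa m i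

def bb {k : ℕ} (m : Fin k → ℕ) (e : Fin k → ℤ) : ℕ → ℤ
  | 0 => 0
  | i + 1 => if h : i < k then m ⟨i, h⟩ * bb m e i + e ⟨i, h⟩ else bb m e i

theorem term_eq {k : ℕ} (m : Fin k → ℕ) (e : Fin k → ℤ) (n : ℤ) (i : ℕ) : term m e n i = aa m i * n + bb m e i := by
  induction i with
  | zero => simp [term, aa, bb]
  | succ i ih =>
    simp only [term, aa, bb]
    split_ifs with h
    · rw [ih]; push_cast; ring
    · exact ih

theorem aa_pos {k : ℕ} (m : Fin k → ℕ) (hm : ∀ i, 1 ≤ m i) (i : ℕ) : 1 ≤ aa m i := by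
  induction i with
  | zero => simp [aa]
  | succ i ih =>
    simp only [aa]
    split_ifs with h
    · exact Nat.mul_pos (hm _) ih
    · exact ih

theorem bb_le {k : ℕ} (m : Fin k → ℕ) (hm : ∀ i, 1 ≤ m i) (e : Fin k → ℤ) (X : ℕ) (he : ∀ i, -(X : ℤ) ≤ e i ∧ e i ≤ X) (i : ℕ) :
    -((i : ℤ) * X * aa m i) ≤ bb m e i ∧ bb m e i ≤ i * X * aa m i := by
  induction i with
  | zero => simp [bb]
  | succ i ih =>
    have h1 := aa_pos m hm i
    have h2 := aa_pos m hm (i + 1)
    simp only [aa, bb] at h2 ⊢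
    have hX : (0 : ℤ) ≤ X := Int.natCast_nonneg X
    have hi : (0 : ℤ) ≤ i := Int.natCast_nonneg i
    split_ifs with h
    · rw [dif_pos h] at h2
      have h3 : (1 : ℤ) ≤ (m ⟨i, h⟩ : ℤ) * aa m i := by exact_mod_cast h2
      have h4 : (0 : ℤ) ≤ m ⟨i, h⟩ := Int.natCast_nonneg _
      have h5 := he ⟨i, h⟩
      have h6 : (X : ℤ) ≤ X * ((m ⟨i, h⟩ : ℤ) * aa m i) := le_mul_of_one_le_right hX h3
      have h7 := mul_le_mul_of_nonneg_left ih.1 h4
      have h8 := mul_le_mul_of_nonneg_left ih.2 h4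
      push_cast
      constructor
      · linarith
      · linarith
    · have h3 : (0 : ℤ) ≤ X * aa m i := by positivity
      push_cast
      constructor
      · linarith [ih.1]
      · linarith [ih.2]

theorem bb_inj {k : ℕ} (m : Fin k → ℕ) (e e' : Fin k → ℤ) (h : ∀ i ≤ k, bb m e i = bb m e' i) : e = e' := by
  funext j
  have h1 := h (j + 1) j.2
  have h2 := h j j.2.le
  simp only [bb, dif_pos j.2] at h1
  rw [h2] at h1
  have : e ⟨j, j.2⟩ = e' ⟨j, j.2⟩ := by linarith
  exact this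

open Pool.Agent.J4H81.DK in
/-- Let `k ≥ 0` and let `m_1, ..., m_k ≥ 1` be integers. For every large `X`, all but at most `X^k exp(-log X / (log log X)^13)` of the
`e = (e_1, ..., e_k)` with entries in `[-X, X]` without local obstruction have at least `X exp(-log X / (log log X)^4)` chains of primes
`p_0, ..., p_k` with `p_(i+1) = m_(i+1) p_i + e_(i+1)` and `(k+1) X ≤ p_0 ≤ (k+2) X`. -/
theorem result (k : ℕ) (m : Fin k → ℕ) (hm : ∀ i, 1 ≤ m i) : ∃ X₀ : ℕ, ∀ X : ℕ, X₀ ≤ X →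
    ((exceptional m X).card : ℝ) ≤ (X : ℝ) ^ k * Real.exp (-(Real.log X / Real.log (Real.log X) ^ 13)) := by
  classical
  set R₀ : ℕ := ∑ i ∈ range (k + 1), aa m i with hR₀
  have hR₀le : ∀ i ≤ k, aa m i ≤ R₀ := fun i hi => single_le_sum (f := fun i => aa m i) (fun _ _ => Nat.zero_le _) (mem_range.2 (Nat.lt_succ_of_le hi))
  have hR₀1 : 1 ≤ R₀ := (aa_pos m hm 0).trans (hR₀le 0 (Nat.zero_le _))
  set R : ℕ := (k + 1) * R₀ with hR
  have hR1 : 1 ≤ R := Nat.mul_pos (Nat.succ_pos k) hR₀1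
  set a : Fin (k + 1) → ℤ := fun j => (aa m j : ℤ) with ha
  have ha0 : 0 < a 0 := by
    simp [ha, aa]
  have hapos : ∀ j, 0 < a j := fun j => by
    have := aa_pos m hm j
    simp only [ha]
    omega
  have haR : ∀ j, |a j| ≤ R := fun j => by
    rw [abs_of_pos (hapos j)]
    simp only [ha]
    have h1 := hR₀le j (Nat.le_of_lt_succ j.2)
    have h2 : R₀ ≤ R := Nat.le_mul_of_pos_left R₀ (Nat.succ_pos k)
    exact_mod_cast h1.trans h2
  have hmain := mainA k R a ha0 (fun j => (hapos j).ne') haR hR1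
  have hC1 : 1 ≤ 2 * R := by omega
  have hsc := scale (2 * R) k hC1
  have htend : Tendsto (fun X : ℕ => 2 * R * X) atTop atTop := tendsto_id.const_mul_atTop' (by omega)
  obtain ⟨X₀, hX₀⟩ := eventually_atTop.1 ((htend.eventually hmain).and (hsc.and (eventually_ge_atTop 1)))
  refine ⟨X₀, fun X hX => ?_⟩
  obtain ⟨h1, ⟨h2, h3⟩, hX1⟩ := hX₀ X hX
  set X' : ℕ := 2 * R * X with hX'
  have hb₀ : (k + 1) * X ≤ X' := by
    have : (k + 1) * 1 ≤ R := Nat.mul_le_mul_left _ hR₀1
    calc (k + 1) * X ≤ R * X := Nat.mul_le_mul_right _ (by omega)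
      _ ≤ _ := by rw [hX']; nlinarith
  have h4 := h1 ((k + 1) * X) hb₀
  refine le_trans ?_ (h4.trans h3)
  apply Nat.cast_le.2
  -- the injection
  have hdiv : X' / (2 * R) = X := by
    rw [hX']
    exact Nat.mul_div_cancel_left X (by omega)
  set x : (Fin k → ℤ) → Fin k → ℕ := fun e i => ((aa m (i + 1) : ℤ) * ((k + 1 : ℕ) * X) + bb m e (i + 1)).toNat with hx
  have hxc : ∀ e : Fin k → ℤ, (∀ i, -(X : ℤ) ≤ e i ∧ e i ≤ X) → ∀ i : Fin k,
      ((x e i : ℕ) : ℤ) = (aa m (i + 1) : ℤ) * ((k + 1 : ℕ) * X) + bb m e (i + 1) ∧ 1 ≤ x e i ∧ x e i ≤ X' := by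
    intro e he i
    have g1 := bb_le m hm e X he (i + 1)
    have g2 := aa_pos m hm (i + 1)
    have g3 := hR₀le (i + 1) i.2
    have g2' : (1 : ℤ) ≤ aa m (i + 1) := by exact_mod_cast g2
    have g3' : (aa m (i + 1) : ℤ) ≤ R₀ := by exact_mod_cast g3
    have hXZ : (1 : ℤ) ≤ X := by exact_mod_cast hX1
    have hik : ((i : ℕ) : ℤ) + 1 ≤ k := by exact_mod_cast i.2
    have hAX : (1 : ℤ) ≤ X * aa m (i + 1) := by nlinarith
    have g4 : ((i : ℤ) + 1) * (X * aa m (i + 1)) ≤ k * (X * aa m (i + 1)) := mul_le_mul_of_nonneg_right hik (by linarith)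
    have hlow : 1 ≤ (aa m (i + 1) : ℤ) * ((k + 1 : ℕ) * X) + bb m e (i + 1) := by
      have := g1.1
      push_cast at this ⊢
      nlinarith
    have hup : (aa m (i + 1) : ℤ) * ((k + 1 : ℕ) * X) + bb m e (i + 1) ≤ X' := by
      have h8 := g1.2
      have h9 : (X : ℤ) * aa m (i + 1) ≤ X * R₀ := mul_le_mul_of_nonneg_left g3' (by linarith)
      have h10 : (2 * (k : ℤ) + 2) * ((X : ℤ) * aa m (i + 1)) ≤ (2 * (k : ℤ) + 2) * (X * R₀) := mul_le_mul_of_nonneg_left h9 (by positivity)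
      rw [hX', hR]
      push_cast at h8 ⊢
      nlinarith
    have hc : ((x e i : ℕ) : ℤ) = (aa m (i + 1) : ℤ) * ((k + 1 : ℕ) * X) + bb m e (i + 1) := by
      simp only [hx]
      rw [Int.toNat_of_nonneg (by linarith)]
    refine ⟨hc, ?_, ?_⟩
    · have : (1 : ℤ) ≤ (x e i : ℕ) := by rw [hc]; exact hlow
      exact_mod_cast this
    · have : ((x e i : ℕ) : ℤ) ≤ (X' : ℕ) := by rw [hc]; exact hup
      exact_mod_cast this
  -- the forms
  have hform : ∀ e : Fin k → ℤ, (∀ i, -(X : ℤ) ≤ e i ∧ e i ≤ X) → ∀ (j : Fin (k + 1)) (n : ℤ),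
      a j * n + (bs ((k + 1) * X) (x e) j : ℕ) = term m e (n + ((k + 1) * X : ℕ)) j := by
    intro e he j n
    rw [term_eq]
    refine Fin.cases ?_ (fun i => ?_) j
    · simp [ha, bs, aa, bb]
    · have g := (hxc e he i).1
      simp only [ha, bs, Fin.cons_succ, Fin.val_succ]
      rw [g]
      push_cast
      ring
  apply card_le_card_of_injOn x
  · intro e hme
    rw [Finset.mem_coe, exceptional, Finset.mem_filter, Fintype.mem_piFinset] at hme
    have he : ∀ i, -(X : ℤ) ≤ e i ∧ e i ≤ X := fun i => Finset.mem_Icc.1 (hme.1 i)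
    rw [Finset.mem_coe, Finset.mem_filter, Fintype.mem_piFinset]
    refine ⟨fun i => ?_, ?_, ?_⟩
    · have hsa : sa a i.succ = false := by
        unfold sa
        exact decide_eq_false (by have := hapos i.succ; omega)
      rw [hsa]
      unfold Pool.Agent.J4H81.GB.rg
      simp only [Bool.false_eq_true, if_false]
      exact Finset.mem_Icc.2 ⟨(hxc e he i).2.1, (hxc e he i).2.2⟩
    · intro p hp
      obtain ⟨n, hn⟩ := hme.2.1 p hp
      refine ⟨((n - ((k + 1) * X : ℕ)) % p).toNat, fun j hj => hn j (Nat.le_of_lt_succ j.2) ?_⟩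
      have hp0 : (p : ℤ) ≠ 0 := by exact_mod_cast hp.ne_zero
      rw [Int.toNat_of_nonneg (Int.emod_nonneg _ hp0)] at hj
      rw [hform e he j] at hj
      rw [term_eq] at hj ⊢
      have h9 : (p : ℤ) ∣ (n - ((k + 1) * X : ℕ)) - (n - ((k + 1) * X : ℕ)) % p := Int.dvd_self_sub_emod
      have h10 := dvd_add hj (h9.mul_left (aa m j : ℤ))
      refine h10.trans (dvd_of_eq ?_)
      ring
    · refine lt_of_le_of_lt ?_ (lt_of_lt_of_le hme.2.2 h2)
      apply Nat.cast_le.2
      unfold GA chains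
      apply card_le_card_of_injOn (fun n => n + (k + 1) * X)
      · intro n hn
        rw [Finset.mem_coe, Finset.mem_filter, Finset.mem_range, hdiv] at hn
        rw [Finset.mem_coe, Finset.mem_filter, Finset.mem_Icc]
        refine ⟨⟨Nat.le_add_left _ _, ?_⟩, fun i hi => ?_⟩
        · have h11 : (k + 2) * X = (k + 1) * X + X := by ring
          have h12 := hn.1
          show n + (k + 1) * X ≤ (k + 2) * X
          omega
        · have h9 := hn.2 ⟨i, Nat.lt_succ_of_le hi⟩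
          rw [hform e he ⟨i, Nat.lt_succ_of_le hi⟩] at h9
          push_cast at h9 ⊢
          exact h9
      · intro n _ n' _ h
        simpa using h
  · intro e hme e' hme' h
    rw [Finset.mem_coe, exceptional, Finset.mem_filter, Fintype.mem_piFinset] at hme hme'
    have he : ∀ i, -(X : ℤ) ≤ e i ∧ e i ≤ X := fun i => Finset.mem_Icc.1 (hme.1 i)
    have he' : ∀ i, -(X : ℤ) ≤ e' i ∧ e' i ≤ X := fun i => Finset.mem_Icc.1 (hme'.1 i)
    apply bb_inj m
    intro i hi
    cases i with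
    | zero => simp [bb]
    | succ i =>
      have g1 := (hxc e he ⟨i, hi⟩).1
      have g2 := (hxc e' he' ⟨i, hi⟩).1
      rw [h] at g1
      simp only at g1 g2
      linarith

end Pool.Agent.Results.MP_c77da8_nt.PerturbedChainsFewExceptions
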