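import Pool.Agent.J4H40.Lh

/-!
# Prime chains `p_(i+1) = m_i p_i + e_i` for almost all perturbations `e_i` in ALL classes of a large modulus

A Cunningham chain of the first kind is a chain of primes `p_(i+1) = 2 p_i + 1`. Here all multipliers
`m_1, ..., m_k` with product `W ≤ (log N) ^ B` are allowed (for instance `m_i = 2`, for every fixed `k`), and the
summand `1` is replaced by an integer `e_i` in a prescribed residue class `a_i` of a large modulus `q` (for instance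
`e_i ≡ 1 (mod q)` for all `i`: Cunningham chains of the first kind modulo `q`). The result holds for EVERY length `k`,
for almost all vectors `e` of integers `|e_i| ≤ T = N / (k W)`.

For all large `N` there is a set `D` of at most `(log N) ^ k₀` integers, all of them larger than any given power
of `log N`, such that for ALL multipliers with product `W ≤ (log N) ^ B`, ALL moduli `q ≤ N ^ (1 - ρ)` which are not
divisible by members of `D` and for ALL residue classes `a_i` modulo `q`, without any condition on `gcd(a_i, q)`,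
each of the following assertions holds for all but at most `(T / q) ^ k / (log N) ^ A` of the vectors `e` with
`|e_i| ≤ T`, `e_i ≡ a_i (mod q)` (the number of all these vectors is about `(2 T / q) ^ k`), for ALL
windows `y₁ < n ≤ y₂ ≤ N / W` in which the terms of the chains are positive. `J` is any subset of the indices;
`q ≤ N ^ (5 / 6 - ρ)` if `J` is not empty.

(i) If `y₂ - y₁ ≥ N / (log N)^A`: there are at least `(13 / 100) ^ |J| M ^ (k - |J|) S (y₂ - y₁) / (log N)^(k+1)`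
primes `p_0 = n` in the window such that the term `p_i` of the chain is prime for all `i ∈ J` and a product of two
primes, the smaller one at most `N ^ ρ`, for all `i ∉ J`. Here `S` is the constant of Hardy and Littlewood
for the chain, and `S ≥ c(k) > 0` if there is no local obstruction. (For `J = {1, ..., k}`: at least the proportion
`(13 / 100) ^ k` of the expected number of the prime chains `p_0, ..., p_k`, for moduli up to `N ^ (5 / 6 - ρ)`.)
(ii) The corresponding inequality for an ARBITRARY real weight `0 ≤ F(n) ≤ log N` on the first term `n` of the chain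
(for instance the indicator function of an arbitrary set of starting numbers), for products of the function of von
Mangoldt (`i ∈ J`) and of convolutions `c_i * Λ` with arbitrary nonnegative coefficients (`i ∉ J`), compared with the
sieve model of the primes: the normalized indicator function of the integers without prime factors up to
`z = (log(3 N))^E`.

If `q ≤ N ^ (1 - ρ)`:
(iii) for arbitrary real coefficients `|c_i(d)| ≤ 1` supported on the integers `N ^ κ < d ≤ N ^ σ` without prime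
factors up to `N ^ κ`, the sum of `Λ(n) ∏ (c_i * Λ)(p_i)` satisfies the expected asymptotic formula;
(iv) for an ARBITRARY complex weight `|F(n)| ≤ log N` on the first term, the product of the convolutions can be
replaced by the product of the densities times the sieve models.

The set `D` does not depend on the multipliers, the modulus, the classes, `J` or the weight.

Proof (`J4H40`, `Ya` to `Yn`, `Zf` to `Zo`, `La` to `Lh`): the theorem on sums `b + p` in all classes of the regular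
moduli (MP_dd84fd_nt/AllClassesOfRegularModuli) holds for arbitrary weights of the first summands, here for weights
supported on the multiples of a leading coefficient. The factors are replaced by their models one after another, for
the weight which is the product of the other ones. The main term is computed with the theorem of Bombieri and
Vinogradov (`Pool.Agent.H373R2.T7.sys_main`, from the starting files).
-/

set_option autoImplicit false

namespace Pool.Agent.Results.MP_c77da8_nt.PerturbedChainsInAllClasses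

open Finset
open ArithmeticFunction (vonMangoldt)

/-- The chain `p_0 = n`, `p_(i+1) = m_i p_i + e_i` (`0 ≤ i < k`). -/
def chain {k : ℕ} (m : Fin k → ℕ) (e : Fin k → ℤ) (n : ℤ) : ℕ → ℤ
  | 0 => n
  | i + 1 => if h : i < k then m ⟨i, h⟩ * chain m e n i + e ⟨i, h⟩ else 0

/-- The term `p_(i+1)` of the chain (for `p_(i+1) ≥ 0`), `0 ≤ i < k`. -/
def term {k : ℕ} (m : Fin k → ℕ) (e : Fin k → ℤ) (n : ℕ) (i : Fin k) : ℕ := (chain m e n ((i : ℕ) + 1)).toNat

open Classical in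
/-- With `T = N / (k ∏ m_i)`: all but at most `(T / q) ^ k / (log N)^A` of the vectors `e` of integers `|e_i| ≤ T`,
`e_i ≡ a_i (mod q)`, have the property `P`. -/
def AlmostAll {k : ℕ} (N q : ℕ) (m : Fin k → ℕ) (a : Fin k → ℤ) (A : ℕ) (P : (Fin k → ℤ) → Prop) : Prop :=
  (((Fintype.piFinset fun i => {t ∈ Icc (-((N / (k * ∏ j, m j) : ℕ) : ℤ)) ((N / (k * ∏ j, m j) : ℕ) : ℤ) |
    t ≡ a i [ZMOD q]}).filter fun e => ¬ P e).card : ℝ) ≤
    ((N : ℝ) / ((k : ℝ) * ((∏ j, m j : ℕ) : ℝ)) / q) ^ k / Real.log N ^ A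

/-- The window of the integers `y₁ < n ≤ y₂` is such that `n ≤ N / ∏ m_i` and that all the terms of the chains
which start with these `n` are positive. -/
def Window {k : ℕ} (N : ℕ) (m : Fin k → ℕ) (e : Fin k → ℤ) (y₁ y₂ : ℕ) : Prop :=
  y₁ ≤ y₂ ∧ (∏ j, m j) * y₂ ≤ N ∧ ∀ i : Fin k, 0 ≤ chain m e y₁ ((i : ℕ) + 1)

open Classical in
/-- The number of the residue classes `r` modulo `p` for which `p` divides one of the terms `p_0, ..., p_k` of the
chain with `p_0 = r`. -/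
noncomputable def nu {k : ℕ} (m : Fin k → ℕ) (e : Fin k → ℤ) (p : ℕ) : ℕ :=
  ((range p).filter fun r : ℕ => ∃ i ∈ range (k + 1), (p : ℤ) ∣ chain m e (r : ℤ) i).card

/-- `S` is the constant of Hardy and Littlewood `∏_p (1 - ν(p) / p) (1 - 1 / p)^(-k-1)` of the chain. -/
def HL {k : ℕ} (m : Fin k → ℕ) (e : Fin k → ℤ) (S : ℝ) : Prop :=
  Filter.Tendsto (fun z : ℕ => ∏ p ∈ (Icc 1 z).filter Nat.Prime,
    (1 - (nu m e p : ℝ) / p) / (1 - 1 / (p : ℝ)) ^ (k + 1)) Filter.atTop (nhds S)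

/-- The sieve model: `∏_{p ≤ z} (1 - 1 / p)⁻¹` if `n` has no prime factor `p ≤ z`, and `0` otherwise. -/
noncomputable def model (z n : ℕ) : ℝ :=
  if ∀ p ∈ (Icc 1 z).filter Nat.Prime, ¬ p ∣ n then (∏ p ∈ (Icc 1 z).filter Nat.Prime, (1 - 1 / (p : ℝ)))⁻¹ else 0

/-- Coefficients bounded by one, supported on the integers `N ^ κ < d ≤ N ^ σ` all of whose prime factors are
larger than `N ^ κ`. -/
structure Coefficients (N : ℕ) (κ σ : ℝ) (c : ℕ → ℝ) : Prop where
  le_one : ∀ d, |c d| ≤ 1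
  support : ∀ d, c d ≠ 0 →
    (N : ℝ) ^ κ < d ∧ (d : ℝ) ≤ (N : ℝ) ^ σ ∧ ∀ p ∈ d.primeFactors, (N : ℝ) ^ κ < p

/-- The convolution of the coefficients with the function of von Mangoldt. -/
noncomputable def conv (c : ℕ → ℝ) (n : ℕ) : ℝ := ∑ d ∈ n.divisors, c d * vonMangoldt (n / d)

/-- The density of the coefficients. -/
noncomputable def dens (N : ℕ) (c : ℕ → ℝ) : ℝ := ∑ d ∈ Icc 1 N, c d / d

lemma chain_ch {k : ℕ} (m : Fin k → ℕ) (e : Fin k → ℤ) (n : ℤ) (i : ℕ) :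
    chain m e n i = Pool.Agent.J4H40.ch m e n i := by
  induction i with
  | zero => rfl
  | succ i ih =>
    rw [chain, Pool.Agent.J4H40.ch]
    split_ifs with h
    · rw [ih]
    · rfl

lemma chain_form {k : ℕ} (m : Fin k → ℕ) (e : Fin k → ℤ) (n : ℤ) (i : Fin k) :
    chain m e n ((i : ℕ) + 1) = Pool.Agent.J4H40.cw m i * n + Pool.Agent.J4H40.chh m e i := by
  rw [chain_ch]
  exact Pool.Agent.J4H40.ch_eq m e n _ i.2

lemma almost_of {k N q A B : ℕ} {m : Fin k → ℕ} (hk : 1 ≤ k) (hm : ∀ i, 1 ≤ m i)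
    (hW : (k : ℝ) * ((∏ j, m j : ℕ) : ℝ) ≤ Real.log N ^ B) (hl : 0 < Real.log N) {a : Fin k → ℤ}
    {P Q : (Fin k → ℤ) → Prop}
    (hPQ : ∀ e : Fin k → ℤ, (∀ i, |Pool.Agent.J4H40.chh m e i| ≤ (N : ℤ)) → Q (Pool.Agent.J4H40.chh m e) → P e)
    (h : Pool.Agent.J4H40.FewV N (fun _ => q) (Pool.Agent.J4H40.chh m a) (A + k * B) Q) :
    AlmostAll N q m a A P := by
  classical
  have h1 := Pool.Agent.J4H40.few_chain hm h
  unfold AlmostAll
  have h2 : (Fintype.piFinset fun i => {t ∈ Icc (-((N / (k * ∏ j, m j) : ℕ) : ℤ)) ((N / (k * ∏ j, m j) : ℕ) : ℤ) |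
      t ≡ a i [ZMOD q]}).filter (fun e => ¬ P e) ⊆
      (Pool.Agent.J4H40.boxC N q m a).filter fun e => ¬ Q (Pool.Agent.J4H40.chh m e) := by
    intro e he
    rw [mem_filter] at he
    rw [mem_filter]
    refine ⟨he.1, fun hq => he.2 (hPQ e (fun i => Pool.Agent.J4H40.box_le hm he.1 i) hq)⟩
  refine (Nat.cast_le.2 (card_le_card h2)).trans (le_trans (by convert h1) ?_)
  obtain ⟨l, hld⟩ : ∃ l, l = Real.log (N : ℝ) := ⟨_, rfl⟩
  rw [← hld] at hW hl ⊢
  have hW0 : 0 < (k : ℝ) * ((∏ j, m j : ℕ) : ℝ) := by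
    have h3 : 0 < ∏ j, m j := prod_pos fun j _ => hm j
    have h4 : (0 : ℝ) < ((∏ j, m j : ℕ) : ℝ) := by exact_mod_cast h3
    have h5 : (0 : ℝ) < k := by exact_mod_cast hk
    positivity
  obtain ⟨X, hX⟩ : ∃ X : ℝ, X = (k : ℝ) * ((∏ j, m j : ℕ) : ℝ) := ⟨_, rfl⟩
  rw [← hX] at hW hW0 ⊢
  have e1 : (N : ℝ) / X / q = (N : ℝ) / q / X := by ring
  rw [e1, div_pow ((N : ℝ) / q) X k, div_div, pow_add, pow_mul', mul_comm (X ^ k)]
  apply div_le_div_of_nonneg_left (by positivity) (by positivity)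
  exact mul_le_mul_of_nonneg_left (pow_le_pow_left₀ hW0.le hW k) (by positivity)

lemma win_of {k N : ℕ} {m : Fin k → ℕ} {e : Fin k → ℤ} {y₁ y₂ : ℕ} (h : Window N m e y₁ y₂) :
    Pool.Agent.J4H40.WinW N (∏ j, m j) (Pool.Agent.J4H40.cw m) (Pool.Agent.J4H40.chh m e) y₁ y₂ := by
  refine ⟨h.1, h.2.1, fun i => ?_⟩
  rw [← chain_form]
  exact h.2.2 i

lemma at_eq {k N : ℕ} {m : Fin k → ℕ} {e : Fin k → ℤ} (h1 : ∀ i, |Pool.Agent.J4H40.chh m e i| ≤ (N : ℤ))
    {y₁ y₂ n : ℕ} (hI : Window N m e y₁ y₂) (hn : y₁ < n) (i : Fin k) :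
    Pool.Agent.J4H40.cw m i * n + Pool.Agent.J4H40.uu N (Pool.Agent.J4H40.chh m e) i - N = term m e n i := by
  obtain ⟨w1, w2, w3⟩ := hI
  have g1 := abs_le.1 (h1 i)
  have g2 := w3 i
  rw [chain_form] at g2
  have g3 : (Pool.Agent.J4H40.cw m i : ℤ) * y₁ ≤ (Pool.Agent.J4H40.cw m i : ℤ) * n := by
    apply mul_le_mul_of_nonneg_left _ (Int.natCast_nonneg _)
    exact_mod_cast hn.le
  unfold term
  rw [chain_form]
  unfold Pool.Agent.J4H40.uu
  obtain ⟨C, hC⟩ : ∃ C, C = Pool.Agent.J4H40.chh m e i := ⟨_, rfl⟩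
  obtain ⟨w, hw⟩ : ∃ w, w = Pool.Agent.J4H40.cw m i := ⟨_, rfl⟩
  rw [← hC] at g1 g2 ⊢
  rw [← hw] at g2 g3 ⊢
  have g4 : ((w * n : ℕ) : ℤ) = (w : ℤ) * n := by push_cast; ring
  omega

lemma nu_eq {k : ℕ} (m : Fin k → ℕ) (e : Fin k → ℤ) (p : ℕ) : Pool.Agent.Y820.LF.nuF
    (Pool.Agent.J4H40.Cw (Pool.Agent.J4H40.cw m)) (Pool.Agent.J4H40.Hw (Pool.Agent.J4H40.chh m e)) p = nu m e p := by
  classical
  unfold Pool.Agent.Y820.LF.nuF nu
  congr 1
  ext r
  simp only [mem_filter]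
  apply and_congr_right
  intro _
  constructor
  · rintro ⟨i, hi⟩
    refine ⟨i, mem_range.2 i.2, ?_⟩
    revert hi
    refine Fin.cases ?_ (fun j => ?_) i
    · simp only [Pool.Agent.J4H40.Cw, Pool.Agent.J4H40.Hw, Fin.cons_zero, one_mul, add_zero]
      intro h
      simpa [chain] using h
    · simp only [Pool.Agent.J4H40.Cw, Pool.Agent.J4H40.Hw, Fin.cons_succ, Fin.val_succ]
      intro h
      rw [chain_form]
      exact h
  · rintro ⟨i, hi, hd⟩
    rw [mem_range] at hi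
    rcases Nat.eq_zero_or_pos i with h0 | h0
    · refine ⟨0, ?_⟩
      rw [h0] at hd
      simp only [Pool.Agent.J4H40.Cw, Pool.Agent.J4H40.Hw, Fin.cons_zero, one_mul, add_zero]
      simpa [chain] using hd
    · have hi1 : i - 1 < k := by omega
      refine ⟨Fin.succ ⟨i - 1, hi1⟩, ?_⟩
      simp only [Pool.Agent.J4H40.Cw, Pool.Agent.J4H40.Hw, Fin.cons_succ]
      have h3 := chain_form m e r ⟨i - 1, hi1⟩
      simp only [Nat.sub_add_cancel h0] at h3
      rw [h3] at hd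
      exact hd

lemma hl_of {k : ℕ} {m : Fin k → ℕ} {e : Fin k → ℤ} {S : ℝ}
    (h : Filter.Tendsto (fun z => Pool.Agent.J4H40.singW (Pool.Agent.J4H40.cw m) (Pool.Agent.J4H40.chh m e) z)
      Filter.atTop (nhds S)) : HL m e S := by
  unfold HL
  refine h.congr fun z => ?_
  unfold Pool.Agent.J4H40.singW Pool.Agent.Y820.LF.singF
  refine prod_congr rfl fun p _ => ?_
  rw [← nu_eq]

lemma ncard_eq (y₁ y₂ : ℕ) (R : ℕ → Prop) [DecidablePred R] :
    Set.ncard {m : ℕ | y₁ < m ∧ m ≤ y₂ ∧ R m} = ((Ioc y₁ y₂).filter R).card := by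
  rw [← Set.ncard_coe_finset]
  congr 1
  ext m
  simp only [Set.mem_ofPred_eq, coe_filter, mem_Ioc]
  tauto

/-- Let `k ≥ 1`. There is a `c₀ > 0` such that for `0 < κ`, `0 < σ < ρ`, `σ ≤ 1 / 2`, and natural numbers `A`, `B`,
`M` there is a `k₀` such that for every `B'`, all sufficiently large `E` and then all sufficiently large `N`, for all
coefficients `c₁, ..., c_k` there is a set `D` of at most `(log N) ^ k₀` integers, all larger than `(log N) ^ B'`, such
that for ALL multipliers `m_i ≥ 1` with product at most `(log N) ^ B`, ALL moduli `1 ≤ q ≤ N ^ (1 - ρ)` which are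
not divisible by members of `D`, and ALL residue classes `a_i`, the properties (i), (ii) hold for almost all
vectors `e` and every set `J` of indices which is empty if `q > N ^ (5 / 6 - ρ)`, and the properties (iii), (iv) hold
for almost all vectors `e`. -/
theorem result (k : ℕ) (hk : 1 ≤ k) : ∃ c₀ : ℝ, 0 < c₀ ∧ ∀ κ σ ρ : ℝ, 0 < κ → 0 < σ → σ < ρ → σ ≤ 1 / 2 →
    ∀ A B M : ℕ, ∃ k₀ : ℕ, ∀ B' : ℕ, ∃ E₀ : ℕ, ∀ E : ℕ, E₀ ≤ E → ∃ N₀ : ℕ, ∀ N : ℕ, N₀ ≤ N →
      ∀ c : Fin k → ℕ → ℝ, (∀ i, Coefficients N κ σ (c i)) →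
      ∃ D : Finset ℕ, (D.card : ℝ) ≤ Real.log N ^ k₀ ∧ (∀ d ∈ D, Real.log N ^ B' < (d : ℝ)) ∧
      ∀ m : Fin k → ℕ, (∀ i, 1 ≤ m i) → ((∏ i, m i : ℕ) : ℝ) ≤ Real.log N ^ B →
      ∀ q : ℕ, 1 ≤ q → (∀ d ∈ D, ¬ d ∣ q) → (q : ℝ) ≤ (N : ℝ) ^ (1 - ρ) → ∀ a : Fin k → ℤ,
        (∀ J : Finset (Fin k), (J.Nonempty → (q : ℝ) ≤ (N : ℝ) ^ (5 / 6 - ρ)) →
          AlmostAll N q m a A (fun e => ∃ S : ℝ, HL m e S ∧ ((∀ p : ℕ, p.Prime → nu m e p < p) → c₀ ≤ S) ∧
            ∀ y₁ y₂ : ℕ, Window N m e y₁ y₂ → (N : ℝ) / Real.log N ^ A ≤ (y₂ : ℝ) - y₁ →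
              (13 / 100) ^ J.card * (M : ℝ) ^ (k - J.card) * (S * ((y₂ : ℝ) - y₁) / Real.log N ^ (k + 1)) ≤
                (Set.ncard {n : ℕ | y₁ < n ∧ n ≤ y₂ ∧ n.Prime ∧ (∀ i ∈ J, (term m e n i).Prime) ∧
                  ∀ i ∉ J, ∃ p₁ p₂ : ℕ, p₁.Prime ∧ p₂.Prime ∧ (p₁ : ℝ) ≤ (N : ℝ) ^ ρ ∧
                    term m e n i = p₁ * p₂} : ℝ)) ∧
          ((∀ i ∉ J, ∀ d, 0 ≤ c i d) → ∀ F : ℕ → ℝ, (∀ n ∈ Icc 1 N, 0 ≤ F n ∧ F n ≤ Real.log N) →
            AlmostAll N q m a A (fun e => ∀ y₁ y₂ : ℕ, Window N m e y₁ y₂ →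
              (13 / 100) ^ J.card * ∑ n ∈ Ioc y₁ y₂, F n * ∏ i, (if i ∈ J then
                  model ⌈Real.log (3 * N) ^ E⌉₊ (term m e n i) else
                  dens N (c i) * model ⌈Real.log (3 * N) ^ E⌉₊ (term m e n i)) - N / Real.log N ^ A ≤
                ∑ n ∈ Ioc y₁ y₂, F n * ∏ i, (if i ∈ J then vonMangoldt (term m e n i) else
                  conv (c i) (term m e n i))))) ∧
        AlmostAll N q m a A (fun e => ∃ S : ℝ, HL m e S ∧ ((∀ p : ℕ, p.Prime → nu m e p < p) → c₀ ≤ S) ∧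
          ∀ y₁ y₂ : ℕ, Window N m e y₁ y₂ →
            |∑ n ∈ Ioc y₁ y₂, vonMangoldt n * ∏ i, conv (c i) (term m e n i) -
              (∏ i, dens N (c i)) * S * ((y₂ : ℝ) - y₁)| ≤ N / Real.log N ^ A) ∧
        ∀ F : ℕ → ℂ, (∀ n ∈ Icc 1 N, ‖F n‖ ≤ Real.log N) →
          AlmostAll N q m a A (fun e => ∀ y₁ y₂ : ℕ, Window N m e y₁ y₂ →
            ‖∑ n ∈ Ioc y₁ y₂, F n * ((∏ i, conv (c i) (term m e n i) -
              ∏ i, dens N (c i) * model ⌈Real.log (3 * N) ^ E⌉₊ (term m e n i) : ℝ) : ℂ)‖ ≤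
              N / Real.log N ^ A) := by
  classical
  refine ⟨Pool.Agent.J4H40.csK k, Pool.Agent.J4H40.csK_pos k, fun κ σ ρ hκ hσ hσρ hσ2 A B M => ?_⟩
  obtain ⟨k₀, hk₀⟩ := Pool.Agent.J4H40.allW hκ hσ hσρ hσ2 k (A + k * (B + 1)) M hk
  refine ⟨k₀, fun B' => ?_⟩
  obtain ⟨E₀, hE₀⟩ := hk₀ (B + B')
  refine ⟨E₀, fun E hE => ?_⟩
  obtain ⟨N₀, h1⟩ := hE₀ E hE
  obtain ⟨N₁, h2⟩ := Pool.Agent.R462.GS.evL ((k : ℝ) + 1)
  refine ⟨N₀ + N₁ + 1, fun N hN c hc => ?_⟩
  obtain ⟨D, hD1, hD2, hD⟩ := h1 N (by omega) c (fun i => ⟨(hc i).le_one, (hc i).support⟩)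
  have hl := h2 N (by omega)
  have hk0 : (0 : ℝ) ≤ k := Nat.cast_nonneg k
  have hl0 : 0 < Real.log N := by linarith
  have hl1 : 1 ≤ Real.log N := by linarith
  have hN1 : (1 : ℝ) ≤ N := by exact_mod_cast (by omega : 1 ≤ N)
  have hN0 : (0 : ℝ) < N := by linarith
  have hρ : 0 < ρ := hσ.trans hσρ
  refine ⟨D, hD1, fun d hd => lt_of_le_of_lt (pow_le_pow_right₀ hl1 (by omega)) (hD2 d hd),
    fun m hm hmB q hq hqD hqN a => ?_⟩
  have hW1 : 1 ≤ ∏ j, m j := Nat.succ_le_of_lt (prod_pos fun j _ => hm j)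
  obtain ⟨b1, b2⟩ := hD (∏ j, m j) (Pool.Agent.J4H40.cw m) hW1
    (hmB.trans (pow_le_pow_right₀ hl1 (by omega)))
    (fun i => ⟨Pool.Agent.J4H40.pw_pos hm _ i.2, Pool.Agent.J4H40.pw_le hm i.2⟩) (fun _ => q) (fun _ => hq)
    (fun _ => hqD) (Pool.Agent.J4H40.chh m a)
  have hkW : (k : ℝ) * ((∏ j, m j : ℕ) : ℝ) ≤ Real.log N ^ (B + 1) := by
    rw [pow_succ, mul_comm]
    exact mul_le_mul hmB (by linarith) hk0 (by positivity)
  have herr : (N : ℝ) / Real.log N ^ (A + k * (B + 1)) ≤ N / Real.log N ^ A := by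
    apply div_le_div_of_nonneg_left hN0.le (by positivity)
    exact pow_le_pow_right₀ hl1 (by omega)
  have hz : Pool.Agent.J4H40.zz N E = ⌈Real.log (3 * N) ^ E⌉₊ := by
    unfold Pool.Agent.J4H40.zz
    push_cast
    rfl
  have hq6 : ∀ J : Finset (Fin k), (J.Nonempty → (q : ℝ) ≤ (N : ℝ) ^ (5 / 6 - ρ)) → ∀ i ∈ J,
      (q : ℝ) ≤ (N : ℝ) ^ (5 / 6 - ρ) := fun J hJ i hi => hJ ⟨i, hi⟩
  have hadm : ∀ (e : Fin k → ℤ) (S : ℝ), (Pool.Agent.Y820.LF.AdmF (Pool.Agent.J4H40.Cw (Pool.Agent.J4H40.cw m))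
      (Pool.Agent.J4H40.Hw (Pool.Agent.J4H40.chh m e)) → Pool.Agent.J4H40.csK k ≤ S) →
      (∀ p : ℕ, p.Prime → nu m e p < p) → Pool.Agent.J4H40.csK k ≤ S := by
    intro e S h3 h4
    apply h3
    intro p hp
    rw [nu_eq]
    exact h4 p hp
  refine ⟨fun J hJ => ⟨?_, fun hc0 F hF => ?_⟩, ?_, fun F hF => ?_⟩
  · refine almost_of hk hm hkW hl0 (fun e he hQ => ?_) (b1 J (hq6 J hJ) (fun _ _ => hqN)).1
    obtain ⟨-, -, S, g3, g5, g4⟩ := hQ
    refine ⟨S, hl_of g3, hadm e S g5, fun y₁ y₂ hI hΔ => ?_⟩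
    have := g4 y₁ y₂ (win_of hI) (herr.trans hΔ)
    rw [ncard_eq]
    refine this.trans (le_of_eq ?_)
    unfold Pool.Agent.J4H40.cntW
    congr 2
    apply filter_congr
    intro n hn
    rw [mem_Ioc] at hn
    have e1 : ∀ i, Pool.Agent.J4H40.cw m i * n + Pool.Agent.J4H40.uu N (Pool.Agent.J4H40.chh m e) i - N =
      term m e n i := fun i => at_eq he hI hn.1 i
    unfold Pool.Agent.J4H40.niceI
    simp only [e1]
    constructor
    · rintro ⟨k1, k2⟩
      exact ⟨k1, fun i hi => (k2 i).1 hi, fun i hi => (k2 i).2 hi⟩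
    · rintro ⟨k1, k2, k3⟩
      exact ⟨k1, fun i => ⟨fun hi => k2 i hi, fun hi => k3 i hi⟩⟩
  · refine almost_of hk hm hkW hl0 (fun e he hQ y₁ y₂ hI => ?_) ((b1 J (hq6 J hJ) (fun _ _ => hqN)).2 hc0 F hF)
    have := hQ y₁ y₂ (win_of hI)
    rw [hz] at this
    have e1 : ∑ n ∈ Ioc y₁ y₂, F n * ∏ i, Pool.Agent.J4H40.modF J c N ⌈Real.log (3 * N) ^ E⌉₊ i
        (Pool.Agent.J4H40.cw m i * n + Pool.Agent.J4H40.uu N (Pool.Agent.J4H40.chh m e) i - N) =
        ∑ n ∈ Ioc y₁ y₂, F n * ∏ i, (if i ∈ J then model ⌈Real.log (3 * N) ^ E⌉₊ (term m e n i) else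
          dens N (c i) * model ⌈Real.log (3 * N) ^ E⌉₊ (term m e n i)) := by
      refine sum_congr rfl fun n hn => ?_
      congr 1
      refine prod_congr rfl fun i _ => ?_
      rw [at_eq he hI (mem_Ioc.1 hn).1 i]
      rfl
    have e2 : ∑ n ∈ Ioc y₁ y₂, F n * ∏ i, Pool.Agent.J4H40.trueF J c i
        (Pool.Agent.J4H40.cw m i * n + Pool.Agent.J4H40.uu N (Pool.Agent.J4H40.chh m e) i - N) =
        ∑ n ∈ Ioc y₁ y₂, F n * ∏ i, (if i ∈ J then vonMangoldt (term m e n i) else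
          conv (c i) (term m e n i)) := by
      refine sum_congr rfl fun n hn => ?_
      congr 1
      refine prod_congr rfl fun i _ => ?_
      rw [at_eq he hI (mem_Ioc.1 hn).1 i]
      rfl
    rw [e1, e2] at this
    linarith
  · refine almost_of hk hm hkW hl0 (fun e he hQ => ?_) (b2 (fun _ => hqN)).1
    obtain ⟨-, -, S, g3, g5, g4⟩ := hQ
    refine ⟨S, hl_of g3, hadm e S g5, fun y₁ y₂ hI => ?_⟩
    have := g4 y₁ y₂ (win_of hI)
    have e1 : ∑ n ∈ Ioc y₁ y₂, Pool.Agent.R460.GS.la n * ∏ i, Pool.Agent.J4H40.GA (c i)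
        (Pool.Agent.J4H40.cw m i * n + Pool.Agent.J4H40.uu N (Pool.Agent.J4H40.chh m e) i - N) =
        ∑ n ∈ Ioc y₁ y₂, vonMangoldt n * ∏ i, conv (c i) (term m e n i) := by
      refine sum_congr rfl fun n hn => ?_
      unfold Pool.Agent.R460.GS.la
      congr 1
      refine prod_congr rfl fun i _ => ?_
      rw [at_eq he hI (mem_Ioc.1 hn).1 i]
      rfl
    rw [e1] at this
    exact this.trans herr
  · refine almost_of hk hm hkW hl0 (fun e he hQ y₁ y₂ hI => ?_) ((b2 (fun _ => hqN)).2 F hF)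
    have := hQ y₁ y₂ (win_of hI)
    rw [hz] at this
    refine le_trans (le_of_eq ?_) (this.trans herr)
    congr 1
    refine sum_congr rfl fun n hn => ?_
    rw [← Complex.ofReal_sub]
    congr 3
    · refine prod_congr rfl fun i _ => ?_
      rw [at_eq he hI (mem_Ioc.1 hn).1 i]
      unfold Pool.Agent.J4H40.trueF
      rw [if_neg (notMem_empty i)]
      rfl
    · refine prod_congr rfl fun i _ => ?_
      rw [at_eq he hI (mem_Ioc.1 hn).1 i]
      unfold Pool.Agent.J4H40.modF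
      rw [if_neg (notMem_empty i)]
      rfl

end Pool.Agent.Results.MP_c77da8_nt.PerturbedChainsInAllClasses
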